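import Mathlib

set_option autoImplicit false

namespace Pool.Agent.Results.MP_9c4245_co.Unb

open Finset Classical

/-- `k`-threshold graph -/
def IsThr {V : Type} (k : ℕ) (G : SimpleGraph V) : Prop :=
  ∃ θ : Fin k → ℝ, StrictMono θ ∧ ∃ r : V → ℝ, ∀ v w, v ≠ w →
    (G.Adj v w ↔ Odd #(univ.filter fun i => θ i ≤ r v + r w))

/-- the numbers `k` such that the edge set is a union of `k` threshold graphs -/
def Cov {V : Type} (G : SimpleGraph V) : Set ℕ :=
  {k | ∃ T : Fin k → SimpleGraph V, (∀ i, IsThr 1 (T i)) ∧ ∀ v w, G.Adj v w ↔ ∃ i, (T i).Adj v w}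

theorem one (θ : Fin 1 → ℝ) (s : ℝ) : Odd #(univ.filter fun i => θ i ≤ s) ↔ θ 0 ≤ s := by
  rw [card_filter, Fin.sum_univ_one]
  by_cases h : θ 0 ≤ s <;> simp [h]

/-- vertices -/
abbrev W (a : ℕ) : Type := (Fin a × Fin a) ⊕ Fin a ⊕ Fin a

/-- ranks -/
def rk (a : ℕ) : Fin 2 → W a → ℤ
  | 0, .inl y => a - y.1
  | 0, .inr (.inl i) => i - a
  | 0, .inr (.inr _) => 0
  | 1, .inl y => y.2
  | 1, .inr (.inl _) => 0
  | 1, .inr (.inr j) => -j

/-- complement pieces -/
def T (a : ℕ) (i : Fin 2) : SimpleGraph (W a) where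
  Adj v w := v ≠ w ∧ rk a i v + rk a i w < 0
  symm := ⟨fun _ _ h => ⟨h.1.symm, by rw [add_comm]; exact h.2⟩⟩
  loopless := ⟨fun _ h => h.1 rfl⟩

/-- the graph -/
def G (a : ℕ) : SimpleGraph (W a) := (T a 0 ⊔ T a 1)ᶜ

theorem adj1 (a : ℕ) (y : Fin a × Fin a) (i : Fin a) :
    (G a).Adj (.inl y) (.inr (.inl i)) ↔ y.1 ≤ i := by
  simp [G, T, rk]

theorem adj2 (a : ℕ) (y : Fin a × Fin a) (j : Fin a) :
    (G a).Adj (.inl y) (.inr (.inr j)) ↔ j ≤ y.2 := by
  simp [G, T, rk]

theorem result (C : ℕ) : ∃ (V : Type) (_ : Fintype V) (G : SimpleGraph V),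
    IsLeast (Cov Gᶜ) 2 ∧ ∀ k ≤ C, ¬ IsThr k G := by
  refine ⟨W (2 * C + 2), inferInstance, G _, ⟨⟨T _, fun i => ⟨fun _ => 1, Subsingleton.strictMono _,
    fun v => -rk _ i v, fun v w h => ?_⟩, fun v w => by simp [G]⟩, ?_⟩, ?_⟩
  · rw [one]
    simp only [T, h, ne_eq, not_false_eq_true, true_and]
    norm_cast
    omega
  · rintro k ⟨S, h1, h2⟩
    by_contra hk
    have : Subsingleton (Fin k) := Fin.subsingleton_iff_le_one.2 (by omega)
    obtain ⟨i, hi⟩ := (h2 (.inl (1, 1)) (.inr (.inl 0))).1 ⟨by simp, by simp [adj1]⟩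
    obtain ⟨j, hj⟩ := (h2 (.inl (0, 0)) (.inr (.inr 1))).1 ⟨by simp, by simp [adj2]⟩
    obtain rfl := Subsingleton.elim i j
    have a1 : ¬ (S i).Adj (.inl (0, 0)) (.inr (.inl 0)) := fun h =>
      ((h2 _ _).2 ⟨i, h⟩).2 (by simp [adj1])
    have a2 : ¬ (S i).Adj (.inl (1, 1)) (.inr (.inr 1)) := fun h =>
      ((h2 _ _).2 ⟨i, h⟩).2 (by simp [adj2])
    obtain ⟨θ, -, r, h⟩ := h1 i
    rw [h _ _ (by simp), one] at hi hj a1 a2
    linarith
  · rintro k hk ⟨θ, -, r, h⟩
    generalize ha : 2 * C + 2 = a at r h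
    let P : Fin a × Fin a → Finset (Fin k × (Fin a ⊕ Fin a)) := fun y =>
      univ.filter fun p => θ p.1 ≤ r (.inl y) + r (.inr p.2)
    have inj : Function.Injective P := fun y z e => by
      have : ∀ x, (G a).Adj (.inl y) (.inr x) ↔ (G a).Adj (.inl z) (.inr x) := fun x => by
        have : ∀ i, θ i ≤ r (.inl y) + r (.inr x) ↔ θ i ≤ r (.inl z) + r (.inr x) := fun i => by
          simpa [P] using Finset.ext_iff.1 e (i, x)
        rw [h (.inl y) (.inr x) (by simp), h (.inl z) (.inr x) (by simp),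
          filter_congr (fun i _ => this i)]
      have h1 := fun i => this (.inl i)
      have h2 := fun i => this (.inr i)
      simp only [adj1, adj2] at h1 h2
      exact Prod.ext (le_antisymm ((h1 _).2 le_rfl) ((h1 _).1 le_rfl))
        (le_antisymm ((h2 _).1 le_rfl) ((h2 _).2 le_rfl))
    have sub : ∀ y z, r (.inl y) ≤ r (.inl z) → P y ⊆ P z := fun y z e p hp =>
      mem_filter.2 ⟨mem_univ _, (mem_filter.1 hp).2.trans (by linarith)⟩
    have := card_le_card_of_injOn (s := univ) (t := range (k * (a + a) + 1)) (fun y => #(P y))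
      (fun y _ => by
        have := card_le_univ (P y)
        simp only [Fintype.card_prod, Fintype.card_fin, Fintype.card_sum] at this
        simp only [coe_range, Set.mem_Iio]
        omega)
      (fun y _ z _ e => inj (by
        rcases le_total (r (.inl y)) (r (.inl z)) with b | b
        · exact eq_of_subset_of_card_le (sub y z b) e.ge
        · exact (eq_of_subset_of_card_le (sub z y b) e.le).symm))
    simp only [card_univ, Fintype.card_prod, Fintype.card_fin, card_range] at this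
    nlinarith

end Pool.Agent.Results.MP_9c4245_co.Unb
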